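import Mathlib

set_option autoImplicit false

namespace Pool.Agent.Results.MP_7d7944_co.NoMinus

/-- the vector space `𝔽₂ⁿ`. -/
abbrev V (n : ℕ) := Fin n → ZMod 2

/-- `F : 𝔽₂ⁿ → 𝔽₂ᵐ` is bent: every derivative in a nonzero direction takes each value exactly
`2^(n-m)` times. -/
def Bent {n m : ℕ} (F : V n → V m) : Prop :=
  ∀ a : V n, a ≠ 0 → ∀ β : V m, Nat.card {x : V n // F (x + a) + F x = β} = 2 ^ (n - m)

/-- `F` is almost balanced of type `(+)`. -/
def TypePlus {n m : ℕ} (F : V n → V m) : Prop :=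
  ∃ α : V m, (Nat.card {x : V n // F x = α} : ℤ) = 2 ^ (n - m) + 2 ^ (n / 2) - 2 ^ (n / 2 - m) ∧
    ∀ β : V m, β ≠ α → (Nat.card {x : V n // F x = β} : ℤ) = 2 ^ (n - m) - 2 ^ (n / 2 - m)

/-- `F` is almost balanced of type `(-)`. -/
def TypeMinus {n m : ℕ} (F : V n → V m) : Prop :=
  ∃ α : V m, (Nat.card {x : V n // F x = α} : ℤ) = 2 ^ (n - m) - 2 ^ (n / 2) + 2 ^ (n / 2 - m) ∧
    ∀ β : V m, β ≠ α → (Nat.card {x : V n // F x = β} : ℤ) = 2 ^ (n - m) + 2 ^ (n / 2 - m)

section field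

variable {K : Type} [Field K] [Fintype K] [DecidableEq K] [Algebra (ZMod 2) K]

theorem two_ker (A : K →ₗ[ZMod 2] K) (y0 : K)
    (h : ∀ y, y ≠ y0 → ¬ Function.Surjective (fun x => x * y + A x)) :
    ∀ y, y ≠ y0 → ∀ x x', x ≠ 0 → x' ≠ 0 → x * y + A x = 0 → x' * y + A x' = 0 → x = x' := by
  have hex : ∀ y : {y : K // y ≠ y0}, ∃ x : {x : K // x ≠ 0}, x.1 * y.1 + A x.1 = 0 := by
    rintro ⟨y, hy⟩
    by_contra hcon
    push Not at hcon
    apply h y hy
    let T : K →ₗ[ZMod 2] K := LinearMap.mulRight (ZMod 2) y + A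
    have hT : ∀ x, T x = x * y + A x := fun x => rfl
    have hinj : Function.Injective T := by
      rw [injective_iff_map_eq_zero]
      intro x hx
      by_contra hx0
      exact hcon ⟨x, hx0⟩ (by rw [← hT]; exact hx)
    have hs : Function.Surjective T := Finite.surjective_of_injective hinj
    exact hs
  choose g hg using hex
  have hginj : Function.Injective g := by
    intro y y' hyy
    have h1 := hg y
    have h2 := hg y'
    rw [hyy] at h1
    have h3 : (g y').1 * y.1 = (g y').1 * y'.1 := by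
      have := h1.trans h2.symm
      exact add_right_cancel this
    exact Subtype.ext (mul_left_cancel₀ (g y').2 h3)
  have hgs : Function.Surjective g := by
    have : Function.Bijective g := by
      rw [Fintype.bijective_iff_injective_and_card]
      refine ⟨hginj, ?_⟩
      rw [Fintype.card_subtype_compl, Fintype.card_subtype_compl]
      simp
    exact this.2
  have key : ∀ y (hy : y ≠ y0) x, x ≠ 0 → x * y + A x = 0 → x = (g ⟨y, hy⟩).1 := by
    intro y hy x hx hxy
    obtain ⟨y', hy'⟩ := hgs ⟨x, hx⟩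
    have h1 := hg y'
    rw [hy'] at h1
    have h3 : x * y'.1 = x * y := add_right_cancel (h1.trans hxy.symm)
    have h4 : y'.1 = y := mul_left_cancel₀ hx h3
    have h5 : y' = ⟨y, hy⟩ := Subtype.ext h4
    rw [← h5, hy']
  intro y hy x x' hx hx' h1 h2
  rw [key y hy x hx h1, key y hy x' hx' h2]

theorem allowed_card (A : K →ₗ[ZMod 2] K) (b α y : K)
    (h : ∀ x x', x ≠ 0 → x' ≠ 0 → x * y + A x = 0 → x' * y + A x' = 0 → x = x') :
    2 * (Finset.univ.filter (fun r : K => ∀ x, x * y + A x + b + r ≠ α)).card ≤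
      Fintype.card K := by
  set W := Finset.univ.filter (fun r : K => ∀ x, x * y + A x + b + r ≠ α) with hW
  let φ : K → K := fun x => α - b - (x * y + A x)
  have h1 : (Finset.univ : Finset K).card ≤ 2 * (Finset.univ.image φ).card := by
    apply Finset.card_le_mul_card_image
    intro c _
    by_contra hcon
    push Not at hcon
    rw [Finset.two_lt_card] at hcon
    obtain ⟨u, hu, v, hv, w, hw, huv, huw, hvw⟩ := hcon
    simp only [Finset.mem_filter, Finset.mem_univ, true_and, φ] at hu hv hw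
    have e1 : (u - v) * y + A (u - v) = 0 := by
      rw [map_sub]
      linear_combination hv - hu
    have e2 : (u - w) * y + A (u - w) = 0 := by
      rw [map_sub]
      linear_combination hw - hu
    have := h _ _ (sub_ne_zero.2 huv) (sub_ne_zero.2 huw) e1 e2
    exact hvw (sub_right_injective this)
  have h2 : Disjoint W (Finset.univ.image φ) := by
    rw [Finset.disjoint_left]
    intro r hr hr'
    rw [hW, Finset.mem_filter] at hr
    rw [Finset.mem_image] at hr'
    obtain ⟨x, _, hx⟩ := hr'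
    apply hr.2 x
    rw [← hx]
    simp only [φ]
    ring
  have h3 : (W ∪ Finset.univ.image φ).card ≤ Fintype.card K := Finset.card_le_univ _
  rw [Finset.card_union_of_disjoint h2] at h3
  rw [Finset.card_univ] at h1
  omega

theorem card_S (c : ℕ) (hc : 2 * c = Fintype.card K) (A B : K →ₗ[ZMod 2] K) (α y0 : K) :
    (Finset.univ.filter (fun ρ : K → K => ∀ y, y ≠ y0 → ∀ x, x * y + A x + B y + ρ y ≠ α)).card ≤
      Fintype.card K * c ^ (Fintype.card K - 1) := by
  set S := Finset.univ.filter (fun ρ : K → K => ∀ y, y ≠ y0 → ∀ x, x * y + A x + B y + ρ y ≠ α)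
    with hS
  rcases S.eq_empty_or_nonempty with h0 | ⟨ρ0, hρ0⟩
  · rw [h0]
    simp
  rw [hS, Finset.mem_filter] at hρ0
  have hns : ∀ y, y ≠ y0 → ¬ Function.Surjective (fun x => x * y + A x) := by
    intro y hy hs
    obtain ⟨x, hx⟩ := hs (α - B y - ρ0 y)
    apply hρ0.2 y hy x
    simp only at hx
    rw [hx]
    ring
  have hk := two_ker A y0 hns
  let W : K → Finset K := fun y => if y = y0 then Finset.univ else
    Finset.univ.filter (fun r : K => ∀ x, x * y + A x + B y + r ≠ α)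
  have hsub : S ⊆ Fintype.piFinset W := by
    intro ρ hρ
    rw [hS, Finset.mem_filter] at hρ
    rw [Fintype.mem_piFinset]
    intro y
    by_cases hy : y = y0
    · simp [W, hy]
    · simp only [W, hy, if_false, Finset.mem_filter, Finset.mem_univ, true_and]
      exact hρ.2 y hy
  refine (Finset.card_le_card hsub).trans ?_
  rw [Fintype.card_piFinset, ← Finset.mul_prod_erase Finset.univ _ (Finset.mem_univ y0)]
  apply Nat.mul_le_mul
  · simp [W]
  · have h5 : ∀ y ∈ Finset.univ.erase y0, (W y).card ≤ c := by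
      intro y hy
      have hy' : y ≠ y0 := (Finset.mem_erase.1 hy).1
      have := allowed_card A (B y) α y (hk y hy')
      simp only [W, hy', if_false]
      omega
    refine (Finset.prod_le_pow_card _ _ _ h5).trans ?_
    rw [Finset.card_erase_of_mem (Finset.mem_univ _), Finset.card_univ]

theorem pow_bound (m : ℕ) (hm : 7 ≤ m) : 2 * m ^ 2 + 2 * m + 1 < 2 ^ m := by
  induction m, hm using Nat.le_induction with
  | base => norm_num
  | succ n hn ih =>
    rw [pow_succ 2 n]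
    nlinarith

theorem exists_rho (m : ℕ) (hm : 7 ≤ m) (hcard : Fintype.card K = 2 ^ m)
    (hfin : Module.finrank (ZMod 2) K = m) :
    ∃ ρ : K → K, ∀ (A B : K →ₗ[ZMod 2] K) (α y0 : K), ¬ ∀ y, y ≠ y0 → ∀ x,
      x * y + A x + B y + ρ y ≠ α := by
  classical
  by_contra hcon
  push Not at hcon
  have : Finite (K →ₗ[ZMod 2] K) := Finite.of_injective (fun f => (f : K → K)) DFunLike.coe_injective
  let _ : Fintype (K →ₗ[ZMod 2] K) := Fintype.ofFinite _
  have hL : Fintype.card (K →ₗ[ZMod 2] K) = 2 ^ (m ^ 2) := by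
    have h1 := Module.card_eq_pow_finrank (K := ZMod 2) (V := (K →ₗ[ZMod 2] K))
    rw [Module.finrank_linearMap, hfin, ZMod.card] at h1
    rw [h1, pow_two]
  obtain ⟨k, rfl⟩ : ∃ k, m = k + 1 := ⟨m - 1, by omega⟩
  let ι := (K →ₗ[ZMod 2] K) × (K →ₗ[ZMod 2] K) × K × K
  let S : ι → Finset (K → K) := fun t =>
    Finset.univ.filter (fun ρ : K → K => ∀ y, y ≠ t.2.2.2 → ∀ x,
      x * y + t.1 x + t.2.1 y + ρ y ≠ t.2.2.1)
  have hcover : (Finset.univ : Finset (K → K)) ⊆ Finset.univ.biUnion S := by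
    intro ρ _
    obtain ⟨A, B, α, y0, h⟩ := hcon ρ
    rw [Finset.mem_biUnion]
    refine ⟨(A, B, α, y0), Finset.mem_univ _, ?_⟩
    simp only [S, Finset.mem_filter, Finset.mem_univ, true_and]
    exact h
  have h1 := (Finset.card_le_card hcover).trans Finset.card_biUnion_le
  have hc : 2 * 2 ^ k = Fintype.card K := by rw [hcard]; ring
  have h2 : ∑ t : ι, (S t).card ≤ ∑ _t : ι, Fintype.card K * (2 ^ k) ^ (Fintype.card K - 1) :=
    Finset.sum_le_sum (fun t _ => card_S (2 ^ k) hc t.1 t.2.1 t.2.2.1 t.2.2.2)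
  have h3 := h1.trans h2
  rw [Finset.sum_const, Finset.card_univ, Finset.card_univ, Fintype.card_fun, smul_eq_mul] at h3
  have h4 : Fintype.card ι = 2 ^ ((k + 1) ^ 2) * (2 ^ ((k + 1) ^ 2) * (2 ^ (k + 1) * 2 ^ (k + 1))) := by
    simp only [ι, Fintype.card_prod, hL, hcard]
  rw [h4, hcard] at h3
  obtain ⟨M, hM⟩ : ∃ M, 2 ^ (k + 1) = M + 1 := ⟨2 ^ (k + 1) - 1, by
    have : 0 < 2 ^ (k + 1) := by positivity
    omega⟩
  have h5 := pow_bound (k + 1) hm
  rw [hM] at h5
  have e1 : ((2:ℕ) ^ (k + 1)) ^ (2 ^ (k + 1)) = 2 ^ ((k + 1) * (M + 1)) := by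
    rw [← pow_mul, hM]
  have e2 : 2 ^ ((k + 1) ^ 2) * (2 ^ ((k + 1) ^ 2) * (2 ^ (k + 1) * 2 ^ (k + 1))) *
      (2 ^ (k + 1) * (2 ^ k) ^ (2 ^ (k + 1) - 1)) =
      (2:ℕ) ^ (2 * (k + 1) ^ 2 + 3 * (k + 1) + k * M) := by
    have : 2 ^ (k + 1) - 1 = M := by omega
    rw [this, ← pow_mul]
    ring
  rw [e1, e2] at h3
  have h6 := (Nat.pow_le_pow_iff_right (by norm_num : 1 < 2)).1 h3
  nlinarith

end field

theorem bentK {K : Type} [Field K] [CharP K 2] (ρ : K → K) (a c β : K) (h : a ≠ 0 ∨ c ≠ 0) :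
    Nat.card {p : K × K // (p.1 + a) * (p.2 + c) + ρ (p.2 + c) + (p.1 * p.2 + ρ p.2) = β} =
      Nat.card K := by
  have h2 : ∀ z : K, z + z = 0 := fun z => CharTwo.add_self_eq_zero z
  by_cases hc : c = 0
  · subst hc
    have ha : a ≠ 0 := by simpa using h
    have hiff : ∀ p : K × K, (p.1 + a) * (p.2 + 0) + ρ (p.2 + 0) + (p.1 * p.2 + ρ p.2) = β ↔
        a * p.2 = β := by
      intro p
      have : (p.1 + a) * (p.2 + 0) + ρ (p.2 + 0) + (p.1 * p.2 + ρ p.2) = a * p.2 := by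
        rw [add_zero]
        linear_combination h2 (p.1 * p.2) + h2 (ρ p.2)
      rw [this]
    apply Nat.card_congr
    refine Equiv.ofBijective (fun p => p.1.1) ⟨?_, ?_⟩
    · rintro ⟨p, hp⟩ ⟨q, hq⟩ hpq
      rw [hiff] at hp hq
      simp only at hpq
      exact Subtype.ext (Prod.ext hpq (mul_left_cancel₀ ha (hp.trans hq.symm)))
    · intro x
      refine ⟨⟨(x, a⁻¹ * β), ?_⟩, rfl⟩
      rw [hiff]
      rw [← mul_assoc, mul_inv_cancel₀ ha, one_mul]
  · have hiff : ∀ p : K × K, (p.1 + a) * (p.2 + c) + ρ (p.2 + c) + (p.1 * p.2 + ρ p.2) = β ↔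
        c * p.1 = β - (a * (p.2 + c) + ρ (p.2 + c) + ρ p.2) := by
      intro p
      have : (p.1 + a) * (p.2 + c) + ρ (p.2 + c) + (p.1 * p.2 + ρ p.2) =
          c * p.1 + (a * (p.2 + c) + ρ (p.2 + c) + ρ p.2) := by
        linear_combination h2 (p.1 * p.2)
      rw [this, eq_sub_iff_add_eq]
    apply Nat.card_congr
    refine Equiv.ofBijective (fun p => p.1.2) ⟨?_, ?_⟩
    · rintro ⟨p, hp⟩ ⟨q, hq⟩ hpq
      rw [hiff] at hp hq
      simp only at hpq
      rw [← hpq] at hq
      exact Subtype.ext (Prod.ext (mul_left_cancel₀ hc (hp.trans hq.symm)) hpq)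
    · intro y
      refine ⟨⟨(c⁻¹ * (β - (a * (y + c) + ρ (y + c) + ρ y)), y), ?_⟩, rfl⟩
      rw [hiff]
      rw [← mul_assoc, mul_inv_cancel₀ hc, one_mul]

/-- For every `m ≥ 7` there is a bent `F : 𝔽₂^{2m} → 𝔽₂^m` no linear translate of which is almost
balanced of type `(-)`. -/
theorem main (m : ℕ) (hm : 7 ≤ m) : ∃ F : V (2 * m) → V m, Bent F ∧
    ∀ L : V (2 * m) →ₗ[ZMod 2] V m, ¬ TypeMinus (fun x => F x + L x) := by
  classical
  have hm0 : m ≠ 0 := by omega
  let K := GaloisField 2 m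
  have : Finite K := inferInstance
  let _ : Fintype K := Fintype.ofFinite K
  have hcard : Fintype.card K = 2 ^ m := by
    rw [← Nat.card_eq_fintype_card]
    exact GaloisField.card 2 m hm0
  have hfin : Module.finrank (ZMod 2) K = m := GaloisField.finrank 2 hm0
  obtain ⟨ρ, hρ⟩ := exists_rho (K := K) m hm hcard hfin
  let e : K ≃ₗ[ZMod 2] V m := LinearEquiv.ofFinrankEq _ _ (by rw [hfin]; simp)
  let e2 : (K × K) ≃ₗ[ZMod 2] V (2 * m) := LinearEquiv.ofFinrankEq _ _ (by
    rw [Module.finrank_prod, hfin]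
    simp
    ring)
  refine ⟨fun z => e ((e2.symm z).1 * (e2.symm z).2 + ρ (e2.symm z).2), ?_, ?_⟩
  · intro a ha β
    have hac : (e2.symm a).1 ≠ 0 ∨ (e2.symm a).2 ≠ 0 := by
      by_contra hcon
      push Not at hcon
      apply ha
      have : e2.symm a = 0 := Prod.ext hcon.1 hcon.2
      simpa using this
    have h1 := bentK ρ (e2.symm a).1 (e2.symm a).2 (e.symm β) hac
    rw [Nat.card_eq_fintype_card, Nat.card_eq_fintype_card (α := K), hcard] at h1
    have h2 : 2 * m - m = m := by omega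
    rw [h2, ← h1, ← Nat.card_eq_fintype_card]
    apply Nat.card_congr
    refine e2.symm.toEquiv.subtypeEquiv (fun z => ?_)
    rw [← map_add, ← LinearEquiv.eq_symm_apply]
    simp only [map_add, Prod.fst_add, Prod.snd_add]
    rfl
  · rintro L ⟨α, hα, _⟩
    have h0 : (2:ℤ) ^ (2 * m - m) - 2 ^ (2 * m / 2) + 2 ^ (2 * m / 2 - m) = 1 := by
      have h1 : 2 * m - m = m := by omega
      have h2 : 2 * m / 2 = m := by omega
      rw [h1, h2]
      simp
    rw [h0] at hα
    have hα' : Nat.card {x : V (2 * m) // e ((e2.symm x).1 * (e2.symm x).2 + ρ (e2.symm x).2) +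
        L x = α} = 1 := by exact_mod_cast hα
    rw [Nat.card_eq_one_iff_unique] at hα'
    obtain ⟨hsub, ⟨z0, hz0⟩⟩ := hα'
    let A : K →ₗ[ZMod 2] K := e.symm.toLinearMap ∘ₗ L ∘ₗ e2.toLinearMap ∘ₗ LinearMap.inl _ _ _
    let B : K →ₗ[ZMod 2] K := e.symm.toLinearMap ∘ₗ L ∘ₗ e2.toLinearMap ∘ₗ LinearMap.inr _ _ _
    apply hρ A B (e.symm α) (e2.symm z0).2
    intro y hy x hxy
    apply hy
    have hz : e ((e2.symm (e2 (x, y))).1 * (e2.symm (e2 (x, y))).2 + ρ (e2.symm (e2 (x, y))).2) +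
        L (e2 (x, y)) = α := by
      rw [LinearEquiv.symm_apply_apply]
      have h3 : (x, y) = ((x, 0) : K × K) + (0, y) := by simp
      have h4 : L (e2 (x, y)) = e (A x) + e (B y) := by
        rw [h3, map_add, map_add]
        simp [A, B]
      rw [h4, ← map_add, ← map_add]
      rw [← LinearEquiv.eq_symm_apply] 
      rw [← hxy]
      simp only
      ring
    have := Subtype.ext_iff.1 (hsub.elim ⟨_, hz⟩ ⟨z0, hz0⟩)
    simp only at this
    rw [← this, LinearEquiv.symm_apply_apply]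

theorem result :
    (¬ ∀ n m : ℕ, Even n → 1 ≤ m → m ≤ n / 2 → ∀ F : V n → V m, Bent F →
      (∃ L : V n →ₗ[ZMod 2] V m, TypePlus (fun x => F x + L x)) ∧
      (∃ L : V n →ₗ[ZMod 2] V m, TypeMinus (fun x => F x + L x))) ∧
    ∀ m : ℕ, 7 ≤ m → ∃ F : V (2 * m) → V m, Bent F ∧
      ∀ L : V (2 * m) →ₗ[ZMod 2] V m, ¬ TypeMinus (fun x => F x + L x) := by
  refine ⟨fun h => ?_, main⟩
  obtain ⟨F, hF, hL⟩ := main 7 le_rfl
  obtain ⟨-, L, hL'⟩ := h (2 * 7) 7 (by decide) (by norm_num) (by norm_num) F hF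
  exact hL L hL'

end Pool.Agent.Results.MP_7d7944_co.NoMinus
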